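import Pool.Agent.H525.EX.Stm

/-! EX/HOM (helper662 for helper525): uniqueness for the functional equations. -/

set_option autoImplicit false

namespace Pool.Agent.H662.EX

open Pool.Agent.H525.EX

/-- the induction step -/
theorem hom_step {s : ℕ} {ε P : ℝ} {u v : Arr} (h : Pre s ε P u v) (hs : ∀ n : ℤ, sm u n = 0)
    (n : ℤ) (hn : 0 ≤ n) (ih : ∀ m : ℤ, m < n → ∀ e : ℤ, u m e = 0 ∧ v m e = 0) :
    ∀ e : ℤ, u n e = 0 ∧ v n e = 0 := by
  have hs0 : (0 : ℤ) ≤ (s : ℤ) := Int.natCast_nonneg s
  have h1 : ∀ e : ℤ, e < n → u n e = 0 := by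
    intro e he
    have hA := h.A n e
    rw [(ih (n - (2 * (s : ℤ) + 1)) (by linarith) _).2, (ih e he n).1,
      (ih (e - (2 * (s : ℤ) + 1)) (by linarith) _).2] at hA
    linarith
  have h2 : ∀ e : ℤ, n < e → u n e = 0 := by
    intro e he
    have hu := h.ua n (2 * n - e)
    rw [show 2 * n - (2 * n - e) = e by ring, h1 (2 * n - e) (by linarith), mul_zero] at hu
    exact hu
  have h3 : u n n = 0 := by
    have hS := hs n
    unfold sm at hS
    rw [Finset.sum_eq_single n] at hS
    · exact hS
    · intro e _ hne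
      rcases lt_or_gt_of_ne hne with h4 | h4
      · exact h1 e h4
      · exact h2 e h4
    · intro h4
      exact absurd (Finset.mem_Icc.2 ⟨by linarith, by linarith⟩) h4
  have h4 : ∀ e : ℤ, u n e = 0 := by
    intro e
    rcases lt_trichotomy e n with h5 | h5 | h5
    · exact h1 e h5
    · rw [h5]; exact h3
    · exact h2 e h5
  have h5 : ∀ e : ℤ, e ≤ n → v n e = 0 := by
    intro e he
    have hB := h.B n (e - 1)
    rw [(ih (e - 1) (by linarith) (n + 1)).1, (ih (e - 1) (by linarith) (n + 1)).2,
      show e - 1 + 1 = e by ring, h4 e] at hB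
    linarith
  intro e
  refine ⟨h4 e, ?_⟩
  rcases le_or_gt e n with h6 | h6
  · exact h5 e h6
  · have hv := h.va n (2 * n + 1 - e)
    rw [show 2 * n + 1 - (2 * n + 1 - e) = e by ring, h5 (2 * n + 1 - e) (by linarith), mul_zero,
      neg_zero] at hv
    exact hv

theorem t_hom : Pool.Agent.H525.EX.S_hom := by
  intro s ε P u v h hs
  have key : ∀ k : ℕ, ∀ m : ℤ, m < (k : ℤ) → ∀ e : ℤ, u m e = 0 ∧ v m e = 0 := by
    intro k
    induction k with
    | zero =>
      intro m hm e
      exact ⟨h.un m e (by simpa using hm), h.vn m e (by simpa using hm)⟩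
    | succ k ih =>
      intro m hm e
      rcases lt_or_ge m (k : ℤ) with h1 | h1
      · exact ih m h1 e
      · have h2 : m = (k : ℤ) := by
          push_cast at hm
          linarith
        rw [h2]
        exact hom_step h hs (k : ℤ) (Int.natCast_nonneg k) ih e
  intro n e
  exact key (n.toNat + 1) n (by
    push_cast
    have := Int.self_le_toNat n
    linarith) e

end Pool.Agent.H662.EX
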